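import Pool.Agent.P8H80.SK.Final

/-!
# A link whose skein module is not finitely generated over the meridians

The question (Q1 of MP_382f0d_gt) is whether for every link `L` in the 3-sphere the Kauffman bracket
skein module `K(E_L, ℚ(A))` of its exterior is finitely generated over the polynomial algebra
`ℚ(A)[m₁, ..., mₙ]` of the meridians.  The answer is negative: it is not finitely generated for
the connected sum `L = C ∪ M₁ ∪ M₂` of two Hopf links (the unknot `C` with two parallel meridian
curves `M₁`, `M₂`), a link with three components whose exterior is `P × S¹`, `P` a disk with two
holes.

The definitions (in `Pool.Agent.P8H80.SK.Defs` and `Pool.Agent.P8H80.SK.Merid`):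

* `Diagram`: the diagrams of the framed links in `E_L = P × S¹` (blackboard framing).  The exterior of
  `C` is a solid torus `D × S¹`, `D` a square, it is projected to the annulus `[0,1] × S¹`; `M₁` and
  `M₂` are drawn as two concentric circles, the poles.  The annulus is cut at one level and the
  diagram is read from top to bottom as a sequence of maxima, minima and crossings.
* `Step`: the moves on diagrams (planar isotopy, Reidemeister moves for framed links, where
  strands of the link may pass over and under the poles, rotation of the annulus).
* `SkeinModule`: the vector space over `ℚ(A)` with the diagrams as basis, modulo isotopy, the Kauffman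
  bracket relation and the relation for trivial circles.
* `mC`: the action of the meridian of `C`; it adds to a link the curve `{pt} × S¹` near the
  boundary torus of `C` (`addVertical`).
* `m₁`, `m₂`: the actions of the meridians of `M₁`, `M₂`; they add a small circle around
  a pole (`addCircle`).
* `Algebra.adjoin (RatFunc ℚ) {mC, m₁, m₂}`: the image of `ℚ(A)[m₁, m₂, m₃]` in the endomorphisms of
  the skein module; `FinGenOver {mC, m₁, m₂}`: the skein module is finitely generated over it.

The proof: a pole carries a Verma module of `U_q(sl₂)`, a strand of the link its two-dimensional
module; the traces on the weight spaces are a map `Psi` of the skein module to the functions on the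
weights.  The meridian of `C` acts on the functions by `f ↦ f (w - 1) + f (w + 1)`, the other two by
the scalar `-A² - A⁻²`.  The function of `n` parallel circles around both poles has at the weight
`-2 d` the value `∑ (i ≤ d), c i ^ n`, `c i = -(A ^ (4 i - 2) + A ^ (2 - 4 i))`, so its degree in `A`
grows as `4 n d`; in a finitely generated module the growth would be bounded.
-/

set_option autoImplicit false

namespace Pool.Agent.Results.MP_382f0d_gt.NotFinitelyGenerated

open Pool.Agent.P8H80.SK

/-- The skein module is finitely generated as a module over the algebra of endomorphisms which is
generated by the set `T`. -/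
def FinGenOver (T : Set (Module.End (RatFunc ℚ) SkeinModule)) : Prop :=
  Module.Finite (Algebra.adjoin (RatFunc ℚ) T) SkeinModule

/-- Let `L = C ∪ M₁ ∪ M₂` be the connected sum of two Hopf links. The meridians of `C`, `M₁`, `M₂` act
on the skein module `K(E_L, ℚ(A))` by linear endomorphisms `mC`, `m₁`, `m₂` (they are determined by
their values on the classes of the diagrams), and `K(E_L, ℚ(A))` is not finitely generated as a
module over the algebra generated by `mC`, `m₁`, `m₂`. -/
theorem result : ∃ mC m₁ m₂ : SkeinModule →ₗ[RatFunc ℚ] SkeinModule,
    (∀ D : Diagram, mC (skeinClass D) = skeinClass (addVertical D)) ∧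
    (∀ D : Diagram, m₁ (skeinClass D) = skeinClass (addCircle 0 D)) ∧
    (∀ D : Diagram, m₂ (skeinClass D) = skeinClass (addCircle 1 D)) ∧
    ¬ FinGenOver {mC, m₁, m₂} :=
  ⟨mC, mM 0, mM 1, mC_cls, mM_cls 0, mM_cls 1, not_fg⟩

end Pool.Agent.Results.MP_382f0d_gt.NotFinitelyGenerated
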